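import Pool.Agent.Helper95_DC.StatGS

set_option autoImplicit false

/-!
Weighted Golod-Shafarevich inequality for quotients of a free group (module GSC).
-/

namespace Pool.Agent.Helper57_DC

open Pool.Agent.Helper95_DC
open Pool.Agent.Helper95_DC.NCP
open scoped ENNReal

variable {p : ℕ} {Y : Type}

/-- The submodule of series of weighted degree at least `m`. -/
def GeS (p : ℕ) (d : Y → ℕ) (m : ℕ) : Submodule (ZMod p) (NCP p Y) where
  carrier := {a | Ge d m a}
  add_mem' := fun ha hb => Ge.add ha hb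
  zero_mem' := ge_of_zero m
  smul_mem' := fun c _ ha => Ge.smul c ha

theorem mem_GeS {d : Y → ℕ} {m : ℕ} {a : NCP p Y} : a ∈ GeS p d m ↔ Ge d m a := Iff.rfl

/-- The two-sided ideal generated by a family, as a subspace. -/
def Id {ι : Type} (r : ι → NCP p Y) : Submodule (ZMod p) (NCP p Y) :=
  Submodule.span (ZMod p) {x | ∃ (a b : NCP p Y) (i : ι), x = a * r i * b}

theorem gen_mem_Id {ι : Type} (r : ι → NCP p Y) (i : ι) : r i ∈ Id r :=
  Submodule.subset_span ⟨1, 1, i, by rw [one_mul, mul_one]⟩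

theorem mul_left_mem_Id {ι : Type} {r : ι → NCP p Y} (c : NCP p Y) {x : NCP p Y}
    (hx : x ∈ Id r) : c * x ∈ Id r := by
  induction hx using Submodule.span_induction with
  | mem x h =>
    obtain ⟨a, b, i, rfl⟩ := h
    exact Submodule.subset_span ⟨c * a, b, i, by simp only [mul_assoc]⟩
  | zero => rw [mul_zero]; exact Submodule.zero_mem _
  | add x y _ _ hx hy => rw [mul_add]; exact Submodule.add_mem _ hx hy
  | smul k x _ hx => rw [mul_smul_comm]; exact Submodule.smul_mem _ _ hx

theorem mul_right_mem_Id {ι : Type} {r : ι → NCP p Y} (c : NCP p Y) {x : NCP p Y}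
    (hx : x ∈ Id r) : x * c ∈ Id r := by
  induction hx using Submodule.span_induction with
  | mem x h =>
    obtain ⟨a, b, i, rfl⟩ := h
    exact Submodule.subset_span ⟨a, b * c, i, by simp only [mul_assoc]⟩
  | zero => rw [zero_mul]; exact Submodule.zero_mem _
  | add x y _ _ hx hy => rw [add_mul]; exact Submodule.add_mem _ hx hy
  | smul k x _ hx => rw [smul_mul_assoc]; exact Submodule.smul_mem _ _ hx

/-- Key decomposition of elements of the ideal. -/
theorem der_mem_Id {ι : Type} {r : ι → NCP p Y} (hr : ∀ i, r i [] = 0) {u : NCP p Y}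
    (hu : u ∈ Id r) : ∃ b : ι →₀ NCP p Y, ∀ y : Y,
      NCP.der y u - b.sum (fun i x => NCP.der y (r i) * x) ∈ Id r := by
  classical
  induction hu using Submodule.span_induction with
  | mem x h =>
    obtain ⟨a, b, i, rfl⟩ := h
    refine ⟨Finsupp.single i (a [] • b), fun y => ?_⟩
    rw [Finsupp.sum_single_index (by rw [mul_zero])]
    rw [mul_assoc, der_mul, der_mul, hr i, zero_smul, zero_add, mul_smul_comm, add_sub_cancel_left]
    exact Submodule.subset_span ⟨NCP.der y a, b, i, by rw [mul_assoc]⟩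
  | zero =>
    refine ⟨0, fun y => ?_⟩
    rw [Finsupp.sum_zero_index, der_zero, sub_zero]
    exact Submodule.zero_mem _
  | add x y _ _ hx hy =>
    obtain ⟨b, hb⟩ := hx
    obtain ⟨c, hc⟩ := hy
    refine ⟨b + c, fun z => ?_⟩
    rw [Finsupp.sum_add_index' (by intro i; rw [mul_zero]) (by intro i a b; rw [mul_add]), der_add]
    have := Submodule.add_mem _ (hb z) (hc z)
    convert this using 1
    abel
  | smul k x _ hx =>
    obtain ⟨b, hb⟩ := hx
    refine ⟨k • b, fun z => ?_⟩
    rw [Finsupp.sum_smul_index' (by intro i; rw [mul_zero]), der_smul]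
    have := Submodule.smul_mem _ k (hb z)
    convert this using 1
    rw [smul_sub, Finsupp.smul_sum]
    simp only [mul_smul_comm]

/-- The subspace `I + Ge k`. -/
def J {ι : Type} (r : ι → NCP p Y) (d : Y → ℕ) (k : ℕ) : Submodule (ZMod p) (NCP p Y) :=
  Id r ⊔ GeS p d k

theorem J_zero {ι : Type} (r : ι → NCP p Y) (d : Y → ℕ) : J r d 0 = ⊤ := by
  rw [eq_top_iff]
  intro a _
  exact Submodule.mem_sup_right (ge_zero a)

theorem Ge_mem_J {ι : Type} {r : ι → NCP p Y} {d : Y → ℕ} {k : ℕ} {a : NCP p Y}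
    (ha : Ge d k a) : a ∈ J r d k := Submodule.mem_sup_right ha

theorem Id_le_J {ι : Type} {r : ι → NCP p Y} {d : Y → ℕ} {k : ℕ} {a : NCP p Y}
    (ha : a ∈ Id r) : a ∈ J r d k := Submodule.mem_sup_left ha

theorem mul_mem_J {ι : Type} {r : ι → NCP p Y} {d : Y → ℕ} {k l n : ℕ} {c x : NCP p Y}
    (hc : Ge d l c) (hx : x ∈ J r d k) (h : n ≤ l + k) : c * x ∈ J r d n := by
  obtain ⟨u, hu, v, hv, rfl⟩ := Submodule.mem_sup.mp hx
  rw [mul_add]
  exact Submodule.add_mem _ (Id_le_J (mul_left_mem_Id c hu)) (Ge_mem_J ((hc.mul hv).mono h))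

theorem mul_left_mem_J {ι : Type} {r : ι → NCP p Y} {d : Y → ℕ} {k : ℕ} (c : NCP p Y)
    {x : NCP p Y} (hx : x ∈ J r d k) : c * x ∈ J r d k :=
  mul_mem_J (ge_zero c) hx (by omega)

theorem nil_of_mem_J {ι : Type} {r : ι → NCP p Y} (hr : ∀ i, r i [] = 0) {d : Y → ℕ} {k : ℕ}
    (hk : 0 < k) {x : NCP p Y} (hx : x ∈ J r d k) : x [] = 0 := by
  obtain ⟨u, hu, v, hv, rfl⟩ := Submodule.mem_sup.mp hx
  rw [add_apply, hv [] (by simpa using hk), add_zero]
  clear hx hv v
  induction hu using Submodule.span_induction with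
  | mem x h =>
    obtain ⟨a, b, i, rfl⟩ := h
    simp [hr i]
  | zero => rfl
  | add x y _ _ hx hy =>
    rw [add_apply, hx, hy, add_zero]
  | smul k x _ hx =>
    rw [NCP.smul_apply, hx, mul_zero]

section count

variable [DecidableEq Y] [Fintype Y] {ι : Type}

/-- Left multiplication on quotients. -/
noncomputable def ml (r : ι → NCP p Y) (d : Y → ℕ) (c : NCP p Y) (k n : ℕ)
    (h : ∀ x ∈ J r d k, c * x ∈ J r d n) :
    (NCP p Y ⧸ J r d k) →ₗ[ZMod p] (NCP p Y ⧸ J r d n) :=
  Submodule.mapQ (J r d k) (J r d n) (LinearMap.mulLeft (ZMod p) c) (fun x hx => h x hx)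

omit [DecidableEq Y] [Fintype Y] in
theorem ml_mk (r : ι → NCP p Y) (d : Y → ℕ) (c : NCP p Y) (k n : ℕ)
    (h : ∀ x ∈ J r d k, c * x ∈ J r d n) (a : NCP p Y) :
    ml r d c k n h (Submodule.Quotient.mk a) = Submodule.Quotient.mk (c * a) := by
  rfl

/-- The count for one degree. -/
theorem count [Fact p.Prime] {r : ι → NCP p Y} (hr : ∀ i, r i [] = 0) (d : Y → ℕ) (e : ι → ℕ)
    (hre : ∀ i, Ge d (e i) (r i)) (hfin : ∀ k, Module.Finite (ZMod p) (NCP p Y ⧸ J r d k))
    (k : ℕ) (hk : 0 < k) (s : Finset ι) (hs : ∀ i, e i < k → i ∈ s) :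
    1 + ∑ y, Module.finrank (ZMod p) (NCP p Y ⧸ J r d (k - d y)) ≤
      Module.finrank (ZMod p) (NCP p Y ⧸ J r d k) +
        ∑ i ∈ s, Module.finrank (ZMod p) (NCP p Y ⧸ J r d (k - e i)) := by
  classical
  have hX : ∀ y, ∀ x ∈ J r d (k - d y), X y * x ∈ J r d k := fun y x hx =>
    mul_mem_J (ge_X d y) hx (by omega)
  have hR : ∀ i y, ∀ x ∈ J r d (k - e i), NCP.der y (r i) * x ∈ J r d (k - d y) := fun i y x hx =>
    mul_mem_J ((hre i).der y) hx (by omega)
  let φ : (∀ y, (NCP p Y ⧸ J r d (k - d y))) →ₗ[ZMod p] (NCP p Y ⧸ J r d k) :=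
    ∑ y, (ml r d (X y) (k - d y) k (hX y)).comp (LinearMap.proj y)
  let ψ : (∀ i : s, (NCP p Y ⧸ J r d (k - e i))) →ₗ[ZMod p] (∀ y, (NCP p Y ⧸ J r d (k - d y))) :=
    LinearMap.pi (fun y => ∑ i : s, (ml r d (NCP.der y (r i)) (k - e i) (k - d y) (hR i y)).comp
      (LinearMap.proj i))
  have hφ : ∀ a : Y → NCP p Y, φ (fun y => Submodule.Quotient.mk (a y)) =
      Submodule.Quotient.mk (∑ y, X y * a y) := by
    intro a
    simp only [φ, LinearMap.sum_apply, LinearMap.comp_apply, LinearMap.proj_apply, ml_mk]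
    exact (map_sum (Submodule.mkQ (J r d k)) _ _).symm
  have hψ : ∀ (b : ι → NCP p Y) (y : Y), ψ (fun i => Submodule.Quotient.mk (b i)) y =
      Submodule.Quotient.mk (∑ i ∈ s, NCP.der y (r i) * b i) := by
    intro b y
    simp only [ψ, LinearMap.pi_apply, LinearMap.sum_apply, LinearMap.comp_apply,
      LinearMap.proj_apply, ml_mk]
    rw [← Finset.sum_coe_sort s (fun i => NCP.der y (r i) * b i)]
    exact (map_sum (Submodule.mkQ (J r d (k - d y))) _ _).symm
  have hker : LinearMap.ker φ ≤ LinearMap.range ψ := by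
    intro v hv
    have hv' : ∃ a : Y → NCP p Y, v = fun y => Submodule.Quotient.mk (a y) := by
      choose a ha using fun y => Submodule.Quotient.mk_surjective (J r d (k - d y)) (v y)
      exact ⟨a, funext fun y => (ha y).symm⟩
    obtain ⟨a, rfl⟩ := hv'
    rw [LinearMap.mem_ker, hφ, Submodule.Quotient.mk_eq_zero] at hv
    obtain ⟨u, hu, g, hg, hug⟩ := Submodule.mem_sup.mp hv
    obtain ⟨b, hb⟩ := der_mem_Id hr hu
    refine ⟨fun i => Submodule.Quotient.mk (b i), ?_⟩
    funext y
    rw [hψ (fun i => b i) y]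
    rw [Submodule.Quotient.eq]
    have h1 : a y = NCP.der y u + NCP.der y g := by
      rw [← der_add, hug, der_sum]
      simp
    have h2 : b.sum (fun i x => NCP.der y (r i) * x) =
        ∑ i ∈ b.support ∪ s, NCP.der y (r i) * b i := by
      rw [Finsupp.sum]
      refine Finset.sum_subset Finset.subset_union_left (fun i _ hi => ?_)
      rw [Finsupp.notMem_support_iff.mp hi, mul_zero]
    have h3 : ∑ i ∈ b.support ∪ s, NCP.der y (r i) * b i =
        ∑ i ∈ (b.support ∪ s) \ s, NCP.der y (r i) * b i + ∑ i ∈ s, NCP.der y (r i) * b i :=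
      (Finset.sum_sdiff Finset.subset_union_right).symm
    have h4 : ∑ i ∈ (b.support ∪ s) \ s, NCP.der y (r i) * b i ∈ J r d (k - d y) := by
      refine Submodule.sum_mem _ (fun i hi => ?_)
      refine Ge_mem_J ?_
      have hi' : k ≤ e i := by
        by_contra hlt
        exact (Finset.mem_sdiff.mp hi).2 (hs i (not_le.mp hlt))
      exact (((hre i).der y).mono (by omega)).mul_right _
    have h5 := hb y
    rw [h2, h3] at h5
    have h6 : ∑ i ∈ s, NCP.der y (r i) * b i - a y =
        -(NCP.der y u - (∑ i ∈ (b.support ∪ s) \ s, NCP.der y (r i) * b i +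
          ∑ i ∈ s, NCP.der y (r i) * b i)) -
          ∑ i ∈ (b.support ∪ s) \ s, NCP.der y (r i) * b i - NCP.der y g := by
      rw [h1]; abel
    rw [h6]
    refine Submodule.sub_mem _ (Submodule.sub_mem _ (Submodule.neg_mem _ (Id_le_J h5)) h4) ?_
    exact Ge_mem_J (Ge.der y hg)
  have hrange : LinearMap.range φ ≠ ⊤ := by
    intro htop
    have h1 : (Submodule.Quotient.mk 1 : NCP p Y ⧸ J r d k) ∈ LinearMap.range φ := by
      rw [htop]; trivial
    obtain ⟨v, hv⟩ := h1
    have hv' : ∃ a : Y → NCP p Y, v = fun y => Submodule.Quotient.mk (a y) := by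
      choose a ha using fun y => Submodule.Quotient.mk_surjective (J r d (k - d y)) (v y)
      exact ⟨a, funext fun y => (ha y).symm⟩
    obtain ⟨a, rfl⟩ := hv'
    rw [hφ, Submodule.Quotient.eq] at hv
    have := nil_of_mem_J hr hk hv
    rw [sub_apply, sum_apply] at this
    simp at this
  have hlt := Submodule.finrank_lt hrange
  have hrn := LinearMap.finrank_range_add_finrank_ker φ
  have hle := Submodule.finrank_mono hker
  have hle2 := LinearMap.finrank_range_le ψ
  rw [Module.finrank_pi_fintype] at hrn hle2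
  rw [Finset.sum_coe_sort s (fun i => Module.finrank (ZMod p) (NCP p Y ⧸ J r d (k - e i)))] at hle2
  omega

/-- The series `mg p f` span everything modulo high degree. -/
theorem span_mg (d : Y → ℕ) (hd : ∀ y, 0 < d y) (k : ℕ) : ∀ a : NCP p Y,
    ∃ s ∈ Submodule.span (ZMod p) (Set.range (fun f : FreeGroup Y => mg p f)), Ge d k (a - s) := by
  have hmul : ∀ s t : NCP p Y,
      s ∈ Submodule.span (ZMod p) (Set.range (fun f : FreeGroup Y => mg p f)) →
      t ∈ Submodule.span (ZMod p) (Set.range (fun f : FreeGroup Y => mg p f)) →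
      s * t ∈ Submodule.span (ZMod p) (Set.range (fun f : FreeGroup Y => mg p f)) := by
    intro s t hs ht
    induction hs using Submodule.span_induction with
    | mem x h =>
      obtain ⟨f, rfl⟩ := h
      induction ht using Submodule.span_induction with
      | mem x h =>
        obtain ⟨g, rfl⟩ := h
        exact Submodule.subset_span ⟨f * g, mg_mul f g⟩
      | zero => rw [mul_zero]; exact Submodule.zero_mem _
      | add x y _ _ hx hy => rw [mul_add]; exact Submodule.add_mem _ hx hy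
      | smul c x _ hx => rw [mul_smul_comm]; exact Submodule.smul_mem _ _ hx
    | zero => rw [zero_mul]; exact Submodule.zero_mem _
    | add x y _ _ hx hy => rw [add_mul]; exact Submodule.add_mem _ hx hy
    | smul c x _ hx => rw [smul_mul_assoc]; exact Submodule.smul_mem _ _ hx
  have hone : (1 : NCP p Y) ∈ Submodule.span (ZMod p) (Set.range (fun f : FreeGroup Y => mg p f)) :=
    Submodule.subset_span ⟨1, mg_one⟩
  have hXs : ∀ y : Y, (X y : NCP p Y) ∈
      Submodule.span (ZMod p) (Set.range (fun f : FreeGroup Y => mg p f)) := by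
    intro y
    have : (X y : NCP p Y) = mg p (FreeGroup.of y) - 1 := by rw [mg_of]; abel
    rw [this]
    exact Submodule.sub_mem _ (Submodule.subset_span ⟨_, rfl⟩) hone
  induction k using Nat.strong_induction_on with
  | _ k ih =>
    intro a
    rcases Nat.eq_zero_or_pos k with rfl | hk
    · exact ⟨0, Submodule.zero_mem _, ge_zero _⟩
    · choose s hs hs' using fun y : Y => ih (k - d y) (by have := hd y; omega) (NCP.der y a)
      refine ⟨a [] • (1 : NCP p Y) + ∑ y, X y * s y, ?_, ?_⟩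
      · refine Submodule.add_mem _ (Submodule.smul_mem _ _ hone) (Submodule.sum_mem _ fun y _ => ?_)
        exact hmul _ _ (hXs y) (hs y)
      · have h1 : a - (a [] • (1 : NCP p Y) + ∑ y, X y * s y) =
            ∑ y, X y * (NCP.der y a - s y) := by
          conv_lhs => rw [eq_const_add_sum a]
          simp only [mul_sub, Finset.sum_sub_distrib]
          have : (a [] • (1 : NCP p Y) + ∑ y, X y * NCP.der y a : NCP p Y) [] = a [] := by
            rw [← eq_const_add_sum a]
          rw [this]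
          abel
        rw [h1]
        exact Ge.sum _ _ (fun y _ => ((ge_X d y).mul (hs' y)).mono (by omega))

omit [Fintype Y] in
/-- The elements congruent to the identity modulo `J`. -/
theorem mem_of_mem_sup {R : ι → FreeGroup Y} {d : Y → ℕ} {k : ℕ} {g : FreeGroup Y}
    (hg : g ∈ Subgroup.normalClosure (Set.range R) ⊔ D p d k) :
    mg p g - 1 ∈ J (fun i => mg p (R i) - 1) d k := by
  let K : Subgroup (FreeGroup Y) :=
    { carrier := {g | mg p g - 1 ∈ J (fun i => mg p (R i) - 1) d k}
      mul_mem' := by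
        intro f g hf hg
        have : mg p (f * g) - 1 = mg p f * (mg p g - 1) + (mg p f - 1) := by
          rw [mg_mul]; noncomm_ring
        rw [Set.mem_ofPred_eq, this]
        exact Submodule.add_mem _ (mul_left_mem_J _ hg) hf
      one_mem' := by
        rw [Set.mem_ofPred_eq, mg_one, sub_self]
        exact Submodule.zero_mem _
      inv_mem' := by
        intro f hf
        have : mg p f⁻¹ - 1 = -(mg p f⁻¹ * (mg p f - 1)) := by
          rw [mul_sub, mg_inv_mul]; noncomm_ring
        rw [Set.mem_ofPred_eq, this]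
        exact Submodule.neg_mem _ (mul_left_mem_J _ hf) }
  have hKn : K.Normal := by
    refine ⟨fun f hf g => ?_⟩
    change mg p (g * f * g⁻¹) - 1 ∈ J (fun i => mg p (R i) - 1) d k
    have hf' : mg p f - 1 ∈ J (fun i => mg p (R i) - 1) d k := hf
    have : mg p (g * f * g⁻¹) - 1 = mg p g * ((mg p f - 1) * mg p g⁻¹) := by
      rw [mg_mul, mg_mul, sub_mul, mul_sub, one_mul, mg_mul_inv, mul_assoc]
    rw [this]
    refine mul_left_mem_J _ ?_
    obtain ⟨u, hu, v, hv, huv⟩ := Submodule.mem_sup.mp hf'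
    rw [← huv, add_mul]
    exact Submodule.add_mem _ (Id_le_J (mul_right_mem_Id _ hu)) (Ge_mem_J (Ge.mul_right hv _))
  have h1 : Subgroup.normalClosure (Set.range R) ≤ K := by
    refine Subgroup.normalClosure_le_normal ?_
    rintro _ ⟨i, rfl⟩
    exact Id_le_J (gen_mem_Id _ i)
  have h2 : D p d k ≤ K := fun f hf => Ge_mem_J hf
  exact (sup_le h1 h2) hg

theorem span_quot {R : ι → FreeGroup Y} {d : Y → ℕ} (hd : ∀ y, 0 < d y) (k : ℕ) :
    Submodule.span (ZMod p) (Set.range (fun q : FreeGroup Y ⧸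
      (Subgroup.normalClosure (Set.range R) ⊔ D p d k) =>
        (Submodule.Quotient.mk (mg p q.out) : NCP p Y ⧸ J (fun i => mg p (R i) - 1) d k))) = ⊤ := by
  rw [eq_top_iff]
  intro x _
  obtain ⟨a, rfl⟩ := Submodule.Quotient.mk_surjective _ x
  obtain ⟨s, hs, hs'⟩ := span_mg d hd k a
  have h1 : (Submodule.Quotient.mk a : NCP p Y ⧸ J (fun i => mg p (R i) - 1) d k) =
      Submodule.Quotient.mk s := by
    rw [Submodule.Quotient.eq]
    exact Ge_mem_J hs'
  rw [h1]
  clear h1 hs'
  induction hs using Submodule.span_induction with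
  | mem x h =>
    obtain ⟨f, rfl⟩ := h
    refine Submodule.subset_span ⟨(f : FreeGroup Y ⧸
      (Subgroup.normalClosure (Set.range R) ⊔ D p d k)), ?_⟩
    change Submodule.Quotient.mk _ = Submodule.Quotient.mk _
    rw [Submodule.Quotient.eq]
    obtain ⟨g, hg⟩ := QuotientGroup.mk_out_eq_mul
      (Subgroup.normalClosure (Set.range R) ⊔ D p d k) f
    have h2 : mg p (Quotient.out (f : FreeGroup Y ⧸
      (Subgroup.normalClosure (Set.range R) ⊔ D p d k))) - mg p f =
        mg p f * (mg p (g : FreeGroup Y) - 1) := by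
      rw [hg, mg_mul, mul_sub, mul_one]
    rw [h2]
    exact mul_left_mem_J _ (mem_of_mem_sup g.2)
  | zero => exact Submodule.zero_mem _
  | add x y _ _ hx hy => exact Submodule.add_mem _ hx hy
  | smul c x _ hx => exact Submodule.smul_mem _ _ hx

theorem sup_finiteIndex [Fact p.Prime] {R : ι → FreeGroup Y} {d : Y → ℕ} (hd : ∀ y, 0 < d y)
    (k : ℕ) : (Subgroup.normalClosure (Set.range R) ⊔ D p d k).FiniteIndex := by
  have := D_finiteIndex (p := p) hd k
  exact Subgroup.finiteIndex_of_le (H := D p d k) le_sup_right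

theorem finite_quot [Fact p.Prime] {R : ι → FreeGroup Y} {d : Y → ℕ} (hd : ∀ y, 0 < d y)
    (k : ℕ) : Module.Finite (ZMod p) (NCP p Y ⧸ J (fun i => mg p (R i) - 1) d k) := by
  have := sup_finiteIndex (p := p) (R := R) hd k
  have hf : Finite (FreeGroup Y ⧸ (Subgroup.normalClosure (Set.range R) ⊔ D p d k)) := inferInstance
  rw [Module.finite_def, ← span_quot (R := R) hd k]
  exact Submodule.fg_span (Set.finite_range _)

theorem finrank_le_index [Fact p.Prime] {R : ι → FreeGroup Y} {d : Y → ℕ} (hd : ∀ y, 0 < d y)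
    (k : ℕ) : Module.finrank (ZMod p) (NCP p Y ⧸ J (fun i => mg p (R i) - 1) d k) ≤
      (Subgroup.normalClosure (Set.range R) ⊔ D p d k).index := by
  have := sup_finiteIndex (p := p) (R := R) hd k
  have hf : Finite (FreeGroup Y ⧸ (Subgroup.normalClosure (Set.range R) ⊔ D p d k)) := inferInstance
  have := Fintype.ofFinite (FreeGroup Y ⧸ (Subgroup.normalClosure (Set.range R) ⊔ D p d k))
  have h := finrank_range_le_card (R := ZMod p) (fun q : FreeGroup Y ⧸
      (Subgroup.normalClosure (Set.range R) ⊔ D p d k) =>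
        (Submodule.Quotient.mk (mg p q.out) : NCP p Y ⧸ J (fun i => mg p (R i) - 1) d k))
  rw [Set.finrank, span_quot (R := R) hd k, finrank_top] at h
  rw [Subgroup.index_eq_card, Nat.card_eq_fintype_card]
  exact h

end count

/-- The shift identity for power series with extended nonnegative coefficients. -/
theorem tsum_shift (c : ℕ → ℝ≥0∞) (hc : c 0 = 0) (T : ℝ≥0∞) (e : ℕ) :
    ∑' k, c (k - e) * T ^ k = T ^ e * ∑' k, c k * T ^ k := by
  rw [← Summable.sum_add_tsum_nat_add' (k := e) ENNReal.summable]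
  have h1 : ∑ k ∈ Finset.range e, c (k - e) * T ^ k = 0 := by
    refine Finset.sum_eq_zero (fun k hk => ?_)
    rw [Nat.sub_eq_zero_of_le (Finset.mem_range.mp hk).le, hc, zero_mul]
  rw [h1, zero_add, ← ENNReal.tsum_mul_left]
  refine tsum_congr (fun k => ?_)
  rw [Nat.add_sub_cancel, pow_add]
  ring

theorem gsc : GSCStatement := by
  intro p _ Y _ _ d hd ι R e hRe t ht0 ht1 hsum hineq n
  by_contra hcon
  push Not at hcon
  set r : ι → NCP p Y := fun i => mg p (R i) - 1 with hrdef
  have hr : ∀ i, r i [] = 0 := by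
    intro i
    rw [hrdef]
    simp [mg_nil]
  have hre : ∀ i, Ge d (e i) (r i) := fun i => hRe i
  have hfin : ∀ k, Module.Finite (ZMod p) (NCP p Y ⧸ J r d k) := fun k => finite_quot hd k
  set c : ℕ → ℝ≥0∞ := fun k => (Module.finrank (ZMod p) (NCP p Y ⧸ J r d k) : ℝ≥0∞) with hcdef
  have hc0 : c 0 = 0 := by
    have : Subsingleton (NCP p Y ⧸ J r d 0) := by
      rw [Submodule.Quotient.subsingleton_iff]
      exact J_zero r d
    have h0 : Module.finrank (ZMod p) (NCP p Y ⧸ J r d 0) = 0 := Module.finrank_zero_of_subsingleton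
    simp only [c, h0, Nat.cast_zero]
  have hcn : ∀ k, c k ≤ n := by
    intro k
    have h1 : Module.finrank (ZMod p) (NCP p Y ⧸ J r d k) ≤ n :=
      (finrank_le_index hd k).trans (hcon k).le
    exact Nat.cast_le.mpr h1
  have hfinset : ∀ k, {i | e i < k}.Finite := by
    intro k
    have h1 : ∀ᶠ i in Filter.cofinite, t ^ e i < t ^ k :=
      hsum.tendsto_cofinite_zero.eventually (gt_mem_nhds (pow_pos ht0 k))
    refine h1.subset (fun i hi => ?_)
    rw [Set.mem_compl_iff, Set.mem_ofPred_eq, not_lt]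
    exact pow_le_pow_of_le_one ht0.le ht1.le (le_of_lt hi)
  set T : ℝ≥0∞ := ENNReal.ofReal t with hT
  have hcount : ∀ k, (if k = 0 then 0 else 1) + ∑ y, c (k - d y) ≤ c k + ∑' i, c (k - e i) := by
    intro k
    rcases Nat.eq_zero_or_pos k with rfl | hk
    · simp [hc0]
    · rw [if_neg hk.ne']
      have h := count hr d e hre hfin k hk (hfinset k).toFinset (fun i hi => by simpa using hi)
      have h' : (1 : ℝ≥0∞) + ∑ y, c (k - d y) ≤ c k + ∑ i ∈ (hfinset k).toFinset, c (k - e i) := by
        simp only [c]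
        exact_mod_cast h
      exact h'.trans (by gcongr; exact ENNReal.sum_le_tsum _)
  set C : ℝ≥0∞ := ∑' k, c k * T ^ k with hC
  set P : ℝ≥0∞ := ∑' i, T ^ e i with hP
  have hT1 : T < 1 := by
    rw [hT, ENNReal.ofReal_lt_one]
    exact ht1
  have hTpos : 0 < T := by
    rw [hT]
    exact ENNReal.ofReal_pos.mpr ht0
  have hCfin : C ≠ ∞ := by
    have h1 : C ≤ n * (1 - T)⁻¹ := by
      rw [← ENNReal.tsum_geometric, ← ENNReal.tsum_mul_left]
      exact ENNReal.tsum_le_tsum (fun k => by gcongr; exact hcn k)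
    refine ne_top_of_le_ne_top ?_ h1
    refine ENNReal.mul_ne_top (ENNReal.natCast_ne_top n) ?_
    rw [ENNReal.inv_ne_top]
    exact (tsub_pos_of_lt hT1).ne'
  have hPeq : P = ENNReal.ofReal (∑' i, t ^ e i) := by
    rw [ENNReal.ofReal_tsum_of_nonneg (fun i => (pow_pos ht0 _).le) hsum, hP]
    refine tsum_congr (fun i => ?_)
    rw [hT, ENNReal.ofReal_pow ht0.le]
  have hPfin : P ≠ ∞ := by rw [hPeq]; exact ENNReal.ofReal_ne_top
  have hsumle : ∑' k, ((if k = 0 then 0 else 1) + ∑ y, c (k - d y)) * T ^ k ≤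
      ∑' k, (c k + ∑' i, c (k - e i)) * T ^ k :=
    ENNReal.tsum_le_tsum (fun k => mul_le_mul_left (hcount k) _)
  have hL : T + (∑ y, T ^ d y) * C ≤ ∑' k, ((if k = 0 then 0 else 1) + ∑ y, c (k - d y)) * T ^ k := by
    have h1 : ∑' k, ((if k = 0 then 0 else 1) + ∑ y, c (k - d y)) * T ^ k =
        ∑' k, (if k = 0 then 0 else 1) * T ^ k + (∑ y, T ^ d y) * C := by
      simp only [add_mul]
      rw [ENNReal.tsum_add]
      congr 1
      simp only [Finset.sum_mul]
      rw [Summable.tsum_finsetSum (fun _ _ => ENNReal.summable)]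
      refine Finset.sum_congr rfl (fun y _ => ?_)
      exact tsum_shift c hc0 T (d y)
    rw [h1]
    gcongr
    have := ENNReal.le_tsum (f := fun k => (if k = 0 then (0 : ℝ≥0∞) else 1) * T ^ k) 1
    simpa using this
  have hRr : ∑' k, (c k + ∑' i, c (k - e i)) * T ^ k = C + P * C := by
    simp only [add_mul]
    rw [ENNReal.tsum_add]
    congr 1
    simp only [← ENNReal.tsum_mul_right]
    rw [ENNReal.tsum_comm]
    rw [hP, ← ENNReal.tsum_mul_right]
    refine tsum_congr (fun i => ?_)
    exact tsum_shift c hc0 T (e i)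
  have hyP : 1 + P ≤ ∑ y, T ^ d y := by
    have h1 : ENNReal.ofReal (1 + ∑' i, t ^ e i) ≤ ENNReal.ofReal (∑ y, t ^ d y) :=
      ENNReal.ofReal_le_ofReal hineq
    rw [ENNReal.ofReal_add zero_le_one (tsum_nonneg (fun i => (pow_pos ht0 _).le)),
      ENNReal.ofReal_one, ← hPeq,
      ENNReal.ofReal_sum_of_nonneg (fun y _ => (pow_pos ht0 _).le)] at h1
    simpa only [ENNReal.ofReal_pow ht0.le, ← hT] using h1
  have hfinal : T + (1 + P) * C ≤ C + P * C := by
    calc T + (1 + P) * C ≤ T + (∑ y, T ^ d y) * C := by gcongr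
      _ ≤ _ := hL.trans (hsumle.trans hRr.le)
  rw [add_mul, one_mul] at hfinal
  have hfin2 : C + P * C ≠ ∞ := ENNReal.add_ne_top.mpr ⟨hCfin, ENNReal.mul_ne_top hPfin hCfin⟩
  have : C + P * C < T + (C + P * C) := by
    rw [add_comm T]
    exact ENNReal.lt_add_right hfin2 hTpos.ne'
  exact absurd hfinal (not_le.mpr this)

end Pool.Agent.Helper57_DC
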